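import Mathlib
import Pool.Agent.R651.CosetLayers

/-!
# The coset counting algorithm ends within `[F₂ : H]` steps

The edges highlighted at step `i + 1` are the edges from the `i`-th to the `(i+1)`-st layer of the
breadth first search from `y H` in the bipartite double cover of the coset graph. As the coset graph
is regular, all layers but the first and the last one have at least two elements; the double cover
has `2 [F₂ : H]` vertices.
-/

set_option autoImplicit false

namespace Pool.Agent.Results.MP_f02465_al.StepsAtMostIndex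

open Pool.Agent.R651

/-- The free group on `a = of 0` and `b = of 1`. -/
abbrev F : Type := FreeGroup (Fin 2)

/-- `Ξ = {a, b, a⁻¹, b⁻¹}` -/
def Xi : Finset F :=
  {FreeGroup.of 0, FreeGroup.of 1, (FreeGroup.of 0)⁻¹, (FreeGroup.of 1)⁻¹}

/-- The directed edges of the coset graph of `F/H`: the pair `(r, h)`, with `r` a left coset and
`h ∈ Ξ`, is an edge from `r` to `h r`. -/
abbrev Edge (H : Subgroup F) : Type := (F ⧸ H) × Xi

/-- The start of an edge. -/
def Edge.src {H : Subgroup F} (e : Edge H) : F ⧸ H := e.1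

/-- The end of an edge. -/
def Edge.tgt {H : Subgroup F} (e : Edge H) : F ⧸ H := (e.2 : F) • e.1

/-- The set `E_i` of the edges highlighted at step `i` (for `i ≥ 1`; `E_0` is not used and set to be
empty). `E_1` is the set of all edges leaving `yH`, and `E_{i+1}` is the set of the edges `t → s` such
that some edge of `E_i` ends at `t` and no edge of `E_i` goes from `s` to `t`. -/
def E (H : Subgroup F) (y : F) : ℕ → Set (Edge H)
  | 0 => ∅
  | 1 => {e | e.src = (y : F ⧸ H)}
  | (i + 2) => {e | (∃ f ∈ E H y (i + 1), f.tgt = e.src) ∧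
      ¬ ∃ f ∈ E H y (i + 1), f.src = e.tgt ∧ f.tgt = e.src}

/-- The number of steps: the largest `i` with `E_i ≠ ∅`. -/
noncomputable def N (H : Subgroup F) (y : F) : ℕ := sSup {i | (E H y i).Nonempty}

theorem Xi_symm : ∀ h ∈ Xi, h⁻¹ ∈ Xi := by
  intro h hh
  simp only [Xi, Finset.mem_insert, Finset.mem_singleton] at hh ⊢
  rcases hh with rfl | rfl | rfl | rfl <;> simp

theorem E_eq (H : Subgroup F) (y : F) (i : ℕ) : E H y (i + 1) =
    {e | e.src ∈ layer (Xi : Set F) (y : F ⧸ H) i ∧
      e.tgt ∈ layer (Xi : Set F) (y : F ⧸ H) (i + 1)} := by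
  induction i with
  | zero =>
    ext e
    constructor
    · intro he
      exact ⟨he, next_zero (Finset.mem_coe.2 e.2.2) he⟩
    · intro he
      exact he.1
  | succ i ih =>
    ext e
    show ((∃ f ∈ E H y (i + 1), f.tgt = e.src) ∧
      ¬ ∃ f ∈ E H y (i + 1), f.src = e.tgt ∧ f.tgt = e.src) ↔ _
    rw [ih]
    constructor
    · rintro ⟨⟨f, ⟨hf1, hf2⟩, hfe⟩, h2⟩
      rw [hfe] at hf2
      refine ⟨hf2, ?_⟩
      rcases next_succ (X := (Xi : Set F)) (Finset.mem_coe.2 e.2.2) hf2 with h3 | h3
      · exfalso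
        apply h2
        refine ⟨(e.tgt, ⟨(e.2 : F)⁻¹, Xi_symm _ e.2.2⟩), ⟨h3, ?_⟩, rfl, ?_⟩
        · show (e.2 : F)⁻¹ • ((e.2 : F) • e.1) ∈ _
          rw [inv_smul_smul]
          exact hf2
        · exact inv_smul_smul _ _
      · exact h3
    · rintro ⟨h1, h2⟩
      refine ⟨?_, ?_⟩
      · obtain ⟨h, hh, x, hx, hxe⟩ := exists_prev h1
        refine ⟨(x, ⟨h, Finset.mem_coe.1 hh⟩), ⟨hx, ?_⟩, hxe.symm⟩
        show h • x ∈ _
        rw [← hxe]
        exact h1
      · rintro ⟨f, ⟨hf1, -⟩, hf3, -⟩
        rw [hf3] at hf1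
        exact disj (X := (Xi : Set F)) (y := (y : F ⧸ H)) (fun h hh => Xi_symm h hh) (i + 2) i 0
          (by omega) _ hf1 h2

/-- **Main result.** Let `H` be a subgroup of finite index of the free group of rank two and let `y`
be an element of it. Then `E_i = ∅` for all `i > [F₂ : H]`, i.e. `N(H, y) ≤ [F₂ : H]`. (In the
problem it is assumed in addition that `H` contains an element of odd length; this is not needed.) -/
theorem result (H : Subgroup F) (hfin : H.FiniteIndex) (y : F) :
    (∀ i, H.index < i → E H y i = ∅) ∧ N H y ≤ H.index := by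
  have hF : Finite (F ⧸ H) := inferInstance
  have h1 : ∀ i, H.index < i → E H y i = ∅ := by
    intro i hi
    obtain ⟨i, rfl⟩ : ∃ i', i = i' + 1 := ⟨i - 1, by omega⟩
    rw [E_eq, layer_eq_empty Xi Xi_symm _ (i + 1) hi]
    simp
  refine ⟨h1, ?_⟩
  apply csSup_le'
  intro i hi
  by_contra hlt
  push Not at hlt
  have hi' : (E H y i).Nonempty := hi
  rw [h1 i hlt] at hi'
  exact Set.not_nonempty_empty hi'

end Pool.Agent.Results.MP_f02465_al.StepsAtMostIndex
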